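import Mathlib
import Pool.Agent.H8.Card2

namespace Pool.Agent.Results.MP_10964f_lc.Neg

open Pool.Agent.H8.Card

theorem result : dNum.IsSingular → ¬ Polar dNum := fun h =>
  not_polar (not_lt.1 fun h' => h.not_isRegular (d_regular h'))

end Pool.Agent.Results.MP_10964f_lc.Neg
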